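import Pool.Agent.H249R2.PM.Round
import Pool.Agent.H76R2.TX.Defs
import Pool.Agent.H76R2.FC.Basic

/-!
# Averaging: Edmonds' theorem for `r`-graphs given by multiplicities
-/

set_option autoImplicit false

namespace Pool.Agent.TH467.DC

open Finset H76FC H76TX

variable {V : Type} [Fintype V] [DecidableEq V]

theorem sum_cross {p : V → V → ℕ} (hs : ∀ u v, p u v = p v u) (S : Finset V) :
    ∑ e : V × V, (if Pool.Agent.H249R2.PM.Cr Prod.fst Prod.snd S e then (p e.1 e.2 : ℝ) else 0)
      = 2 * (H76FC.cut p S : ℝ) := by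
  have h1 : ∀ u v : V, (if Pool.Agent.H249R2.PM.Cr Prod.fst Prod.snd S (u, v) then (p u v : ℝ) else 0)
      = (if u ∈ S then (if v ∈ Sᶜ then (p u v : ℝ) else 0) else 0)
        + (if v ∈ S then (if u ∈ Sᶜ then (p u v : ℝ) else 0) else 0) := by
    intro u v
    unfold Pool.Agent.H249R2.PM.Cr
    by_cases hu : u ∈ S <;> by_cases hv : v ∈ S <;> simp [hu, hv]
  rw [Fintype.sum_prod_type]
  simp only [h1, Finset.sum_add_distrib]
  have h2 : ∑ u : V, ∑ v : V, (if u ∈ S then (if v ∈ Sᶜ then (p u v : ℝ) else 0) else 0)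
      = (H76FC.cut p S : ℝ) := by
    unfold H76FC.cut
    push_cast
    rw [← Finset.sum_filter_add_sum_filter_not univ (fun u => u ∈ S)]
    rw [Finset.sum_eq_zero (s := univ.filter fun u => ¬ u ∈ S)]
    · rw [add_zero]
      have h3 : (univ.filter fun u => u ∈ S) = S := by ext u; simp
      rw [h3]
      refine Finset.sum_congr rfl fun u hu => ?_
      simp only [if_pos hu]
      rw [← Finset.sum_filter]
      congr 1
      ext v; simp
    · intro u hu
      rw [Finset.mem_filter] at hu
      simp [hu.2]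
  have h4 : ∑ u : V, ∑ v : V, (if v ∈ S then (if u ∈ Sᶜ then (p u v : ℝ) else 0) else 0)
      = (H76FC.cut p S : ℝ) := by
    rw [← h2, Finset.sum_comm]
    refine Finset.sum_congr rfl fun u _ => Finset.sum_congr rfl fun v _ => ?_
    rw [hs v u]
  rw [h2, h4]
  ring

theorem cut_single {r : ℕ} {p : V → V → ℕ} (hp : RGraph r p) (v : V) : H76FC.cut p {v} = r := by
  unfold H76FC.cut
  rw [Finset.sum_singleton, ← hp.reg v, ← Finset.sum_add_sum_compl {v}, Finset.sum_singleton,
    hp.loopless, zero_add]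

theorem even_card {r : ℕ} {p : V → V → ℕ} (hr : 1 ≤ r) (hp : RGraph r p) :
    Even (Fintype.card V) := by
  by_contra hodd
  have := hp.odd univ (by simpa using hodd)
  simp [H76FC.cut] at this
  omega

theorem avg {r : ℕ} {p : V → V → ℕ} (hr : 1 ≤ r) (hp : RGraph r p) (F : Finset (Finset V))
    (w : Finset V → ℝ) :
    ∃ M, PMof p M ∧
      (r : ℝ) * ∑ X ∈ F, w X * (out M X : ℝ) ≤ ∑ X ∈ F, w X * (H76FC.cut p X : ℝ) := by
  classical
  have hr0 : (0 : ℝ) < r := by exact_mod_cast hr
  set x : V × V → ℝ := fun e => (p e.1 e.2 : ℝ) / (2 * r) with hx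
  have hcut : ∀ S, Pool.Agent.H249R2.PM.cut Prod.fst Prod.snd x S = (H76FC.cut p S : ℝ) / r := by
    intro S
    rw [Pool.Agent.H249R2.PM.cut_eq_ite]
    have h1 := sum_cross hp.symm S
    have h2 : ∑ e : V × V, (if Pool.Agent.H249R2.PM.Cr Prod.fst Prod.snd S e then x e else 0)
        = (∑ e : V × V, (if Pool.Agent.H249R2.PM.Cr Prod.fst Prod.snd S e then (p e.1 e.2 : ℝ)
          else 0)) / (2 * r) := by
      rw [Finset.sum_div]
      refine Finset.sum_congr rfl fun e _ => ?_
      split_ifs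
      · rfl
      · simp
    rw [h2, h1]
    field_simp
  have hFr : Pool.Agent.H249R2.PM.Fr Prod.fst Prod.snd x := by
    refine ⟨?_, ?_, ?_⟩
    · intro e; simp only [hx]; positivity
    · intro v
      rw [hcut, cut_single hp, div_self hr0.ne']
    · intro S hS
      rw [hcut, le_div_iff₀ hr0, one_mul]
      exact_mod_cast hp.odd S hS
  set c : V × V → ℝ := fun e => ∑ X ∈ F,
    w X * (if Pool.Agent.H249R2.PM.Cr Prod.fst Prod.snd X e then 1 else 0) with hc
  obtain ⟨Ms, hM, hpos, hle⟩ := Pool.Agent.H249R2.PM.round (E := V × V) (Fintype.card V) V rfl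
    (even_card hr hp) Prod.fst Prod.snd x c hFr
  -- the edge at a vertex
  have hex : ∀ v : V, ∃ e : V × V, Ms.filter (Pool.Agent.H249R2.PM.Cr Prod.fst Prod.snd {v}) = {e} :=
    fun v => Finset.card_eq_one.1 (hM.deg v)
  choose e he using hex
  have hmem : ∀ v, e v ∈ Ms ∧ ¬ ((e v).1 = v ↔ (e v).2 = v) := by
    intro v
    have h1 : e v ∈ Ms.filter (Pool.Agent.H249R2.PM.Cr Prod.fst Prod.snd {v}) := by
      rw [he]; exact Finset.mem_singleton_self _
    rw [Finset.mem_filter, Pool.Agent.H249R2.PM.Cr_singleton] at h1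
    exact h1
  have huniq : ∀ v (d : V × V), d ∈ Ms → ¬ (d.1 = v ↔ d.2 = v) → d = e v := by
    intro v d hd hdv
    have h1 : d ∈ Ms.filter (Pool.Agent.H249R2.PM.Cr Prod.fst Prod.snd {v}) := by
      rw [Finset.mem_filter, Pool.Agent.H249R2.PM.Cr_singleton]
      exact ⟨hd, hdv⟩
    rw [he, Finset.mem_singleton] at h1
    exact h1
  set M : V → V := fun v => if (e v).1 = v then (e v).2 else (e v).1 with hMd
  have hform : ∀ v, (e v = (v, M v) ∨ e v = (M v, v)) ∧ M v ≠ v := by
    intro v
    have h1 := (hmem v).2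
    simp only [hMd]
    by_cases h : (e v).1 = v
    · rw [if_pos h]
      refine ⟨Or.inl (Prod.ext h rfl), ?_⟩
      intro h2
      exact h1 ⟨fun _ => h2, fun _ => h⟩
    · rw [if_neg h]
      have h2 : (e v).2 = v := by
        by_contra h3
        exact h1 ⟨fun h4 => absurd h4 h, fun h4 => absurd h4 h3⟩
      exact ⟨Or.inr (Prod.ext rfl h2), h⟩
  have hinv : ∀ v, M (M v) = v := by
    intro v
    obtain ⟨h1, h2⟩ := hform v
    have h3 : e v = e (M v) := by
      apply huniq (M v) (e v) (hmem v).1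
      rcases h1 with h | h <;> rw [h]
      · intro h4
        exact h2 (h4.2 rfl).symm
      · intro h4
        exact h2 (h4.1 rfl).symm
    obtain ⟨h4, h5⟩ := hform (M v)
    rw [← h3] at h4
    rcases h1 with h | h <;> rcases h4 with h' | h' <;> rw [h] at h'
    · exact absurd (Prod.ext_iff.1 h').1.symm h2
    · exact (Prod.ext_iff.1 h').1.symm
    · exact (Prod.ext_iff.1 h').2.symm
    · exact absurd (Prod.ext_iff.1 h').2.symm h2
  have hpM : ∀ v, 0 < p v (M v) := by
    intro v
    have h1 := hpos (e v) (hmem v).1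
    simp only [hx] at h1
    have h2 : (0 : ℝ) < (p (e v).1 (e v).2 : ℝ) := by
      by_contra h3
      push Not at h3
      have h4 : (p (e v).1 (e v).2 : ℝ) = 0 := le_antisymm h3 (by positivity)
      rw [h4, zero_div] at h1
      exact lt_irrefl _ h1
    have h3 : 0 < p (e v).1 (e v).2 := by exact_mod_cast h2
    rcases (hform v).1 with h | h <;> rw [h] at h3
    · exact h3
    · rw [hp.symm]; exact h3
  have hout : ∀ S : Finset V,
      out M S = (Ms.filter (Pool.Agent.H249R2.PM.Cr Prod.fst Prod.snd S)).card := by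
    intro S
    unfold out
    refine Finset.card_bij (fun v _ => e v) ?_ ?_ ?_
    · intro v hv
      rw [Finset.mem_filter] at hv ⊢
      refine ⟨(hmem v).1, ?_⟩
      unfold Pool.Agent.H249R2.PM.Cr
      rcases (hform v).1 with h | h <;> rw [h]
      · simp [hv.1, hv.2]
      · simp [hv.1, hv.2]
    · intro u hu v hv huv
      rw [Finset.mem_filter] at hu hv
      have huv' : e u = e v := huv
      by_contra hne
      rcases (hform u).1 with h | h <;> rcases (hform v).1 with h' | h' <;> rw [h, h'] at huv'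
      · exact hne (Prod.ext_iff.1 huv').1
      · have h1 : M u = v := (Prod.ext_iff.1 huv').2
        exact hu.2 (h1 ▸ hv.1)
      · have h1 : M u = v := (Prod.ext_iff.1 huv').1
        exact hu.2 (h1 ▸ hv.1)
      · exact hne (Prod.ext_iff.1 huv').2
    · intro d hd
      rw [Finset.mem_filter] at hd
      obtain ⟨hd1, hd2⟩ := hd
      unfold Pool.Agent.H249R2.PM.Cr at hd2
      by_cases h : d.1 ∈ S
      · have h2 : d.2 ∉ S := fun h3 => hd2 ⟨fun _ => h3, fun _ => h⟩
        have hne : d.1 ≠ d.2 := fun h3 => h2 (h3 ▸ h)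
        have h4 : d = e d.1 := huniq d.1 d hd1 (fun h5 => hne (h5.1 rfl).symm)
        refine ⟨d.1, ?_, h4.symm⟩
        rw [Finset.mem_filter]
        refine ⟨h, ?_⟩
        rcases (hform d.1).1 with h5 | h5
        · have h6 : d = (d.1, M d.1) := h4.trans h5
          have h7 : d.2 = M d.1 := (Prod.ext_iff.1 h6).2
          rw [← h7]; exact h2
        · have h6 : d = (M d.1, d.1) := h4.trans h5
          exact absurd (Prod.ext_iff.1 h6).2.symm hne
      · have h2 : d.2 ∈ S := by
          by_contra h3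
          exact hd2 ⟨fun h4 => absurd h4 h, fun h4 => absurd h4 h3⟩
        have hne : d.1 ≠ d.2 := fun h3 => h (h3 ▸ h2)
        have h4 : d = e d.2 := huniq d.2 d hd1 (fun h5 => hne (h5.2 rfl))
        refine ⟨d.2, ?_, h4.symm⟩
        rw [Finset.mem_filter]
        refine ⟨h2, ?_⟩
        rcases (hform d.2).1 with h5 | h5
        · have h6 : d = (d.2, M d.2) := h4.trans h5
          exact absurd (Prod.ext_iff.1 h6).1 hne
        · have h6 : d = (M d.2, d.2) := h4.trans h5
          have h7 : d.1 = M d.2 := (Prod.ext_iff.1 h6).1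
          rw [← h7]; exact h
  refine ⟨M, ⟨⟨hinv, fun v => (hform v).2⟩, hpM⟩, ?_⟩
  have hL : ∑ d ∈ Ms, c d = ∑ X ∈ F, w X * (out M X : ℝ) := by
    simp only [hc]
    rw [Finset.sum_comm]
    refine Finset.sum_congr rfl fun X _ => ?_
    rw [← Finset.mul_sum, hout X]
    congr 1
    rw [Finset.sum_boole]
  have hRR : ∑ d ∈ univ.filter (fun d : V × V => d.1 ≠ d.2), c d * x d
      = ∑ X ∈ F, w X * ((H76FC.cut p X : ℝ) / r) := by
    simp only [hc, Finset.sum_mul]
    rw [Finset.sum_comm]
    refine Finset.sum_congr rfl fun X _ => ?_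
    rw [← hcut X]
    unfold Pool.Agent.H249R2.PM.cut
    rw [Finset.mul_sum, Finset.sum_filter, Finset.sum_filter]
    refine Finset.sum_congr rfl fun d _ => ?_
    by_cases hd : Pool.Agent.H249R2.PM.Cr Prod.fst Prod.snd X d
    · have hne := Pool.Agent.H249R2.PM.Cr_ne hd
      rw [if_pos hd, if_pos hne, if_pos hd]
      ring
    · rw [if_neg hd]
      split_ifs <;> simp
  rw [hL, hRR] at hle
  have h5 := mul_le_mul_of_nonneg_left hle hr0.le
  refine h5.trans (le_of_eq ?_)
  rw [Finset.mul_sum]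
  refine Finset.sum_congr rfl fun X _ => ?_
  field_simp

end Pool.Agent.TH467.DC
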